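import Pool.Agent.Y105.CR.Strong

/-!
# A two-generated infinite critical associative ring of exponent four

A stronger form of `InfiniteCriticalRing`, with the same construction. `Critical`, `ProperFactor`
and `Pw` (`Pw R n` is the additive group generated by the products of `n + 1` elements, so
`Pw R n = ⊥` means that `R` is nilpotent) are those of `Pool.Agent.H854R3.CR`.
-/

set_option autoImplicit false

namespace Pool.Agent.Results.MP_70de85_al.TwoGeneratedExponentFour

open Pool.Agent.H854R3.CR

/-- There is an infinite critical associative ring `R` that is generated by two elements and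
satisfies the identities `4 x = 0` and `2 x y z = 0`. All its proper factors satisfy
`2 (x y - y x) = 0`, and any two elements `u, v` with `2 (u v - v u) ≠ 0` generate `R`. It is
subdirectly irreducible, with a non-zero element `z` that lies in all non-zero ideals and in all
powers of `R`, and all its finite homomorphic images are nilpotent. -/
theorem result : ∃ (R : Type) (_ : NonUnitalRing R), Infinite R ∧ Critical R ∧
    (∃ X Y : R, NonUnitalSubring.closure ({X, Y} : Set R) = ⊤) ∧
    (∀ r : R, 4 • r = 0) ∧ (∀ a b c : R, 2 • (a * b * c) = 0) ∧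
    (∀ (T : Type) [NonUnitalRing T], ProperFactor T R → ∀ u v : T, 2 • (u * v - v * u) = 0) ∧
    (∀ u v : R, 2 • (u * v - v * u) ≠ 0 → NonUnitalSubring.closure ({u, v} : Set R) = ⊤) ∧
    (∃ z : R, z ≠ 0 ∧ (∀ I : TwoSidedIdeal R, I ≠ ⊥ → z ∈ I) ∧ ∀ n, z ∈ Pw R n) ∧
    (∀ (T : Type) [NonUnitalRing T] [Finite T] (f : R →ₙ+* T), Function.Surjective f →
      ∃ n, Pw T n = ⊥) :=
  Pool.Agent.Y105.CR.main

end Pool.Agent.Results.MP_70de85_al.TwoGeneratedExponentFour
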